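import Pool.Agent.TSPa15.Expand
import Pool.Agent.BHH57.As

/-!
# MP_076557_pr: the Beardwood-Halton-Hammersley theorem together with the expansion of its
constant, as the dimension tends to infinity (Q1, nothing assumed)
-/

set_option autoImplicit false

open MeasureTheory ProbabilityTheory Filter Topology

universe u

namespace Pool.Agent.Results.MP_076557_pr.BetaExpansion

/-- The length of a shortest closed tour through the points `x 0, …, x (n - 1)`: the minimum over all
orders `σ` of the points of the sum of the `n` distances between cyclically consecutive points. -/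
noncomputable def tour {d n : ℕ} (x : Fin n → EuclideanSpace ℝ (Fin d)) : ℝ :=
  ⨅ σ : Equiv.Perm (Fin n), ∑ i : Fin n, dist (x (σ i)) (x (σ (finRotate n i)))

/-- The unit cube `[0,1]^d`. -/
def unitCube (d : ℕ) : Set (EuclideanSpace ℝ (Fin d)) := {x | ∀ j, x j ∈ Set.Icc (0 : ℝ) 1}

/-- `X 0, X 1, …` are independent random points, each uniformly distributed in `[0,1]^d`. -/
structure IsUniform (d : ℕ) {Ω : Type u} [MeasurableSpace Ω] (P : Measure Ω)
    (X : ℕ → Ω → EuclideanSpace ℝ (Fin d)) : Prop where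
  measurable : ∀ i, Measurable (X i)
  indep : iIndepFun X P
  law : ∀ i, P.map (X i) = (volume : Measure (EuclideanSpace ℝ (Fin d))).restrict (unitCube d)

/-- The expected length `E L_d(n)` for `n` independent uniform points of the unit cube. -/
noncomputable def meanTour (d n : ℕ) : ℝ :=
  ∫ x : Fin n → EuclideanSpace ℝ (Fin d), tour x
    ∂(Measure.pi fun _ => (volume : Measure (EuclideanSpace ℝ (Fin d))).restrict (unitCube d))

/-- The leading factor `(d/(2πe))^(1/2) (πd)^(1/(2d))`. -/
noncomputable def leading (d : ℕ) : ℝ :=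
  Real.sqrt ((d : ℝ) / (2 * Real.pi * Real.exp 1)) * (Real.pi * d) ^ (1 / (2 * (d : ℝ)))

theorem result :
    ∃ β : ℕ → ℝ,
      (∀ d : ℕ, 2 ≤ d →
        Tendsto (fun n : ℕ => meanTour d n / (n : ℝ) ^ (((d : ℝ) - 1) / d)) atTop (𝓝 (β d)) ∧
        ∀ (Ω : Type u) [MeasurableSpace Ω] (P : Measure Ω) [IsProbabilityMeasure P]
          (X : ℕ → Ω → EuclideanSpace ℝ (Fin d)), IsUniform d P X →
          ∀ᵐ ω ∂P, Tendsto (fun n : ℕ => tour (fun i : Fin n => X i ω)
            / (n : ℝ) ^ (((d : ℝ) - 1) / d)) atTop (𝓝 (β d))) ∧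
      ∃ C : ℝ, ∀ d : ℕ, 2 ≤ d →
        |β d / leading d - 1 - (2 - Real.log 2 - 2 * Real.eulerMascheroniConstant) / d|
          ≤ C / (d : ℝ) ^ 2 := by
  choose β hβ0 hβp hβm hβa using fun (d : ℕ) (hd : 2 ≤ d) => BHH57.bhh.{u} d hd
  set b : ℕ → ℝ := fun d => if hd : 2 ≤ d then β d hd else 0 with hb
  have hbd : ∀ d (hd : 2 ≤ d), b d = β d hd := fun d hd => by simp only [hb, dif_pos hd]
  refine ⟨b, fun d hd => ⟨?_, fun Ω _ P _ X hX => ?_⟩, ?_⟩
  · rw [hbd d hd]
    exact hβm d hd
  · rw [hbd d hd]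
    exact hβa d hd P X hX.measurable hX.indep hX.law
  · obtain ⟨C, hC⟩ := TSPa15.expand_all b fun d hd => by rw [hbd d hd]; exact hβp d hd
    refine ⟨C, fun d hd => ?_⟩
    have h1 := hC d hd
    rwa [← sub_sub] at h1

end Pool.Agent.Results.MP_076557_pr.BetaExpansion
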